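import Pool.Agent.H66RB.Mem

/-!
# The unweighted red-blue `s`-`t` cut problem in undirected graphs is NP-complete

The proof reduces from the clique problem.
-/

set_option autoImplicit false

namespace Pool.Agent.Results.MP_ad21dd_lc.RedBlueNPComplete

open Pool.Agent.NPC Pool.Agent.H66RB

/-- The unweighted red-blue `s`-`t` cut problem in undirected graphs is in `NP` and `NP`-hard under
polynomial-time many-one reductions; and every language in `NP` even reduces to it by a
polynomial-time function all of whose values are correct instances (simple graphs with two distinct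
vertices `s`, `t`) which are bipartite and in which all blue edges end in `t`. -/
theorem result : InNPP RedBlueCut ∧ NPHardP RedBlueCut ∧
    ∀ L : Set (List Bool), InNP L → ∃ f : List Bool → Inst,
      PolyTime (fun x => bits (f x)) ∧ (∀ x, IsInstance (f x) ∧ Restricted (f x)) ∧
      ∀ x, x ∈ L ↔ RedBlueCut (f x) := by
  refine ⟨inNPP, hardPr.toHardI.toNPHardP, fun L hL => ?_⟩
  obtain ⟨f, hf, hpr, hfL⟩ := hardPr L hL
  exact ⟨f, PC.toPolyTime hf, hpr, hfL⟩

end Pool.Agent.Results.MP_ad21dd_lc.RedBlueNPComplete
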